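import Pool.Agent.H121.GA.IfB
import Pool.Agent.H121.Z987.Op
import Pool.Agent.H800.Y987.Meas
import Pool.Agent.H168.Y987.Op

/-! Project GA: measurability of the Green functions of `T + V`. -/

set_option autoImplicit false

open scoped BigOperators InnerProductSpace Topology ENNReal
open Filter MeasureTheory

namespace Pool.Agent.H738.GA

open Pool.Agent.Y662.TR (LL Cf Mw dv hu clp ev)
open Pool.Agent.TH369.AN (Rz)
open Pool.Agent.TH369.MU (SpM ep zk)
open Pool.Agent.H987.Z (Rs Gr Fr gZ HV)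
open Pool.Agent.H987.Y
open Pool.Agent.H121.GA
open Pool.Agent.H121.Z987 (zk_im Gr_E_cont)

variable {ι : Type}

theorem hw_tendsto (h2 : S_opb) (T : LL ι →L[ℂ] LL ι) (hT : Rs T) (b : ℝ) {α : Type*}
    {F : Filter α} (V : α → ι → ℝ) (V0 : ι → ℝ)
    (hV : ∀ x, Tendsto (fun k => V k x) F (𝓝 (V0 x)))
    (z : ℂ) (hz : z.im ≠ 0) (u : LL ι) :
    Tendsto (fun k => Rz (HW T b (V k)) z u) F (𝓝 (Rz (HW T b V0) z u)) := by
  have hrs : ∀ V, Rs (HW T b V) := fun V => h2.2.1 ι T hT b V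
  rw [tendsto_iff_norm_sub_tendsto_zero]
  have h1 := Pool.Agent.Y662.TR.Mw_tendsto b V V0 hV (Rz (HW T b V0) z u)
  rw [tendsto_iff_norm_sub_tendsto_zero] at h1
  have h2 := h1.div_const |z.im|
  rw [zero_div] at h2
  refine squeeze_zero (fun k => norm_nonneg _) (fun k => ?_) h2
  rw [Pool.Agent.H304.Z987.rz_sub' _ (hrs _).sa _ (hrs _).sa z hz u]
  refine (Pool.Agent.TH369.AN.rz_norm _ (hrs _).sa z hz _).trans (le_of_eq ?_)
  congr 1
  rw [norm_sub_rev]
  congr 1
  change (T (Rz (HW T b V0) z u) + Mw b (V k) (Rz (HW T b V0) z u)) -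
    (T (Rz (HW T b V0) z u) + Mw b V0 (Rz (HW T b V0) z u)) = _
  abel

theorem gr_hw_cont (h2 : S_opb) (T : LL ι →L[ℂ] LL ι) (hT : Rs T) (lam b : ℝ) (z : ℂ) (x y : ι)
    (hz : z.im ≠ 0) : Continuous fun ω : ι → ℝ => Gr (HW T b fun p => lam * ω p) z x y := by
  rw [continuous_iff_continuousAt]
  intro V0
  have h := hw_tendsto h2 T hT b (F := 𝓝 V0) (fun (V : ι → ℝ) p => lam * V p)
    (fun p => lam * V0 p)
    (fun w => ((continuous_apply w).tendsto V0).const_mul lam) z hz (dv y)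
  have h2 := ((ev x).continuous.tendsto _).comp h
  exact h2

theorem gr_hw_meas (h2 : S_opb) [Countable ι] (T : LL ι →L[ℂ] LL ι) (hT : Rs T) (lam b : ℝ)
    (k : ℕ) (x y : ι) :
    Measurable (Function.uncurry fun (E : ℝ) (ω : ι → ℝ) =>
      Gr (HW T b fun p => lam * ω p) (zk E k) x y) := by
  apply measurable_uncurry_of_continuous_of_measurable
  · intro ω
    exact Gr_E_cont _ (h2.2.1 ι T hT b _) k x y
  · intro E
    exact (gr_hw_cont h2 T hT lam b (zk E k) x y (by
      rw [zk_im]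
      exact (Pool.Agent.TH369.MU.PO2.ep_pos k).ne')).measurable

/-- the Green function of `T + V` as a limit -/
theorem gu_lim (h1 : S_ruA) (T : LL ι →L[ℂ] LL ι) (hT : Rs T) (V : ι → ℝ) (z : ℂ)
    (hz : z.im ≠ 0) (x y : ι) :
    Tendsto (fun n : ℕ => Gr (HW T (n : ℝ) V) z x y) atTop (𝓝 (GU T V z x y)) := by
  have h := (h1 ι T hT V z hz).2.1
  have h3 : Tendsto (fun n : ℕ => Rz (HW T (n : ℝ) V) z (dv y)) atTop
      (𝓝 (RU T V z (dv y))) :=
    ((ContinuousLinearMap.apply ℂ (LL ι) (dv y)).continuous.tendsto _).comp h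
  exact ((ev x).continuous.tendsto _).comp h3

/-- **GA-MEAS.** -/
theorem mU (h1 : S_ruA) (h2 : S_opb) : S_mU := by
  refine ⟨fun ι _ T hT lam x y => ⟨fun k => ?_, fun z hz => ?_⟩, ?_⟩
  · refine measurable_of_tendsto_metrizable (f := fun (n : ℕ) => Function.uncurry
      fun (E : ℝ) (ω : ι → ℝ) => Gr (HW T (n : ℝ) fun p => lam * ω p) (zk E k) x y)
      (fun n => gr_hw_meas h2 T hT lam n k x y) ?_
    rw [tendsto_pi_nhds]
    rintro ⟨E, ω⟩
    exact gu_lim h1 T hT _ (zk E k) (by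
      rw [zk_im]
      exact (Pool.Agent.TH369.MU.PO2.ep_pos k).ne') x y
  · refine measurable_of_tendsto_metrizable (f := fun (n : ℕ) (ω : ι → ℝ) =>
      Gr (HW T (n : ℝ) fun p => lam * ω p) z x y)
      (fun n => (gr_hw_cont h2 T hT lam n z x y hz).measurable) ?_
    rw [tendsto_pi_nhds]
    intro ω
    exact gu_lim h1 T hT _ z hz x y
  · intro ι Ω _ _ k h V hk hkm hVm z x y hz
    have hop := Pool.Agent.H168.Y987.op
    refine measurable_of_tendsto_metrizable (f := fun (n : ℕ) (ω : Ω) =>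
      Gr (HW (Op (k ω)) (n : ℝ) (V ω)) z x y) (fun n => ?_) ?_
    · have h3 : ∀ ω, Ker (h + n) (fun x y => k ω x y + dgb (n : ℝ) (V ω) x y) ∧
          Op (fun x y => k ω x y + dgb (n : ℝ) (V ω) x y) = HW (Op (k ω)) (n : ℝ) (V ω) :=
        fun ω => h2.1 ι (k ω) h n (hk ω) (Nat.cast_nonneg n) (V ω)
      have h4 := Pool.Agent.H800.Y987.meas hop ι Ω
        (fun ω x y => k ω x y + dgb (n : ℝ) (V ω) x y) (h + n) (fun ω => (h3 ω).1)
        (fun x y => by
          refine (hkm x y).add ?_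
          unfold dgb
          split_ifs with hxy
          · have h5 : Measurable (clp (n : ℝ)) := by
              unfold clp
              fun_prop
            exact h5.comp (hVm x)
          · exact measurable_const) z x y hz
      have h6 : (fun ω => Gr (HW (Op (k ω)) (n : ℝ) (V ω)) z x y) = fun ω =>
          Gr (Op (fun x y => k ω x y + dgb (n : ℝ) (V ω) x y)) z x y := by
        funext ω
        rw [(h3 ω).2]
      rw [h6]
      exact h4
    · rw [tendsto_pi_nhds]
      intro ω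
      exact gu_lim h1 (Op (k ω)) (hop ι (k ω) h (hk ω)).2.2.1 (V ω) z hz x y

end Pool.Agent.H738.GA
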